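import Mathlib
import Pool.Agent.R279.PJ.Pr

set_option autoImplicit false

/-!
# Q2 of MP_c7d282_an has a negative answer

There is a closed bounded matrix convex set `K` in 8 self-adjoint variables, closed under complex
conjugation, which is the matrix convex hull of its free extreme points, while its projection to
the first 4 coordinates has no free extreme point at all.
-/

namespace Pool.Agent.Results.MP_c7d282_an.ProjectionWithoutExtremes

open Pool.Agent.R279.PJ

/-- closed under entrywise complex conjugation -/
def ConjClosed {g : ℕ} (K : FreeSet g) : Prop :=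
  ∀ n : ℕ, 0 < n → ∀ X ∈ K n, (fun j => (X j).map (starRingEnd ℂ)) ∈ K n

/-- A closed bounded matrix convex set `K`, closed under complex conjugation, with
`K = mconv (free extreme points of K)`, whose projection to the first four of its eight coordinates
is nonempty and has no free extreme points at any level `n ≥ 1`, so that the matrix convex hull of
the free extreme points of the projection is empty. -/
theorem result : ∃ K : FreeSet 8,
    SelfAdj K ∧ ClosedBounded K ∧ MatrixConvex K ∧ ConjClosed K ∧
    (∀ n : ℕ, 0 < n → K n = mconv (FE K) n) ∧
    ∀ n : ℕ, 0 < n → (proj four_le_eight K n).Nonempty ∧ FE (proj four_le_eight K) n = ∅ ∧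
      mconv (FE (proj four_le_eight K)) n = ∅ := by
  refine ⟨LL, LL_selfAdj, LL_closedBounded, LL_convex, fun n _ X hX => LL_conj hX,
    fun n hn => LL_eq_mconv_FE hn, fun n hn => ⟨?_, FE_LL_empty hn,
      mconv_empty (fun m hm => FE_LL_empty hm) hn⟩⟩
  exact ⟨0, 0, KK_I_sub (zero_mem_KK _ n), fun _ => rfl⟩

end Pool.Agent.Results.MP_c7d282_an.ProjectionWithoutExtremes
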