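import Mathlib
import Pool.Agent.R279.PJ.Spec

set_option autoImplicit false

/-!
# A complex free spectrahedron spanned by free extreme points with a projection having none

The free spectrahedron of all `2 × 2` block contractions (in 8 self-adjoint coordinates) is the
matrix convex hull of its free extreme points, but its projection to the first 4 coordinates has no
free extreme point.
-/

namespace Pool.Agent.Results.MP_c7d282_an.SpectrahedronProjection

open Pool.Agent.R279.PJ

/-- A bounded (complex) free spectrahedron `D_A`, `A` an 8-tuple of self-adjoint `4 × 4` matrices,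
which is the matrix convex hull of its free extreme points and whose projection to the first four
coordinates has no free extreme points at any level `n ≥ 1`. -/
theorem result : ∃ A : Fin 8 → Matrix (Fin 4) (Fin 4) ℂ, (∀ j, (A j).IsHermitian) ∧
    ClosedBounded (freeSpec A) ∧ MatrixConvex (freeSpec A) ∧
    (∀ n : ℕ, 0 < n → freeSpec A n = mconv (FE (freeSpec A)) n) ∧
    ∀ n : ℕ, 0 < n → (proj four_le_eight (freeSpec A) n).Nonempty ∧
      FE (proj four_le_eight (freeSpec A)) n = ∅ ∧
      mconv (FE (proj four_le_eight (freeSpec A))) n = ∅ := by
  have hI : IU Complex.I := Or.inl rfl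
  refine ⟨AA, AA_herm, ?_⟩
  rw [← KK_eq_freeSpec]
  refine ⟨KK_closedBounded hI, KK_convex _, fun n hn => KK_eq_mconv_FE hI hn,
    fun n hn => ⟨?_, FE_KK_empty hI hn, mconv_empty (fun m hm => FE_KK_empty hI hm) hn⟩⟩
  exact ⟨0, 0, zero_mem_KK _ n, fun _ => rfl⟩

end Pool.Agent.Results.MP_c7d282_an.SpectrahedronProjection
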